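import Pool.Agent.Results.MP_f0f1b2_co.SqrtPly

set_option autoImplicit false

/-!
# Conflict-free colourings of discs of bounded ply: two-sided bounds
-/

open scoped Classical
open Filter Topology

namespace Pool.Agent.Results.MP_f0f1b2_co.PlyBounds

open Pool.Agent.Results.MP_f0f1b2_co.SqrtPly (Disc Mem PlyLE ConflictFree Bad Force Inv lv A Lst
  hx_step inv_step lv_eq force_all_length gad_all)

/-! ### the insertion game needs only `k (k + 1) / 2 + 1` rounds -/

theorem count_le (k : ℕ) (m : Fin k → ℕ)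
    (h : ∀ l, 1 ≤ l → (∃ c, l ≤ m c) → ∃ c, m c = l) (j : ℕ) :
    (Finset.univ.filter fun c => j < m c).card ≤ k - j := by
  by_cases hex : ∃ c, j < m c
  · have hch : ∀ i : Fin j, ∃ c, m c = i.val + 1 := by
      intro i
      obtain ⟨c, hc⟩ := hex
      exact h (i.val + 1) (by omega) ⟨c, by omega⟩
    choose F hF using hch
    have hinj : Function.Injective F := by
      intro a b hab
      have h1 := hF a
      have h2 := hF b
      rw [hab] at h1
      apply Fin.ext
      omega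
    have hdis : Disjoint (Finset.univ.filter fun c => j < m c) (Finset.univ.image F) := by
      rw [Finset.disjoint_left]
      intro c hc hc'
      rw [Finset.mem_filter] at hc
      rw [Finset.mem_image] at hc'
      obtain ⟨i, -, rfl⟩ := hc'
      have := hF i
      have h3 := i.isLt
      omega
    have hcard := Finset.card_le_univ ((Finset.univ.filter fun c => j < m c) ∪ Finset.univ.image F)
    rw [Finset.card_union_of_disjoint hdis, Finset.card_image_of_injective _ hinj,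
      Finset.card_univ, Fintype.card_fin, Fintype.card_fin] at hcard
    omega
  · have : (Finset.univ.filter fun c => j < m c) = ∅ := by
      rw [Finset.filter_eq_empty_iff]
      intro c _ hc
      exact hex ⟨c, hc⟩
    rw [this, Finset.card_empty]
    exact Nat.zero_le _

theorem sum_sub (k : ℕ) : ∀ M : ℕ, ∑ j ∈ Finset.range M, (k - j) ≤ k * (k + 1) / 2 := by
  induction k with
  | zero =>
    intro M
    simp
  | succ k ih =>
    intro M
    cases M with
    | zero => simp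
    | succ M =>
      rw [Finset.sum_range_succ']
      have h1 := ih M
      have h2 : ∑ j ∈ Finset.range M, (k + 1 - (j + 1)) = ∑ j ∈ Finset.range M, (k - j) :=
        Finset.sum_congr rfl fun j _ => by omega
      rw [h2]
      have h3 : (k + 1) * (k + 1 + 1) = k * (k + 1) + 2 * (k + 1) := by ring
      omega

theorem sum_le (k : ℕ) (m : Fin k → ℕ)
    (h : ∀ l, 1 ≤ l → (∃ c, l ≤ m c) → ∃ c, m c = l) : ∑ c, m c ≤ k * (k + 1) / 2 := by
  set M := ∑ c, m c with hM
  have hle : ∀ c, m c ≤ M := fun c => Finset.single_le_sum (fun i _ => Nat.zero_le _) (Finset.mem_univ c)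
  have h1 : ∀ c, m c = ∑ j ∈ Finset.range M, if j < m c then 1 else 0 := by
    intro c
    rw [← Finset.card_filter]
    have : (Finset.range M).filter (fun j => j < m c) = Finset.range (m c) := by
      ext j
      rw [Finset.mem_filter, Finset.mem_range, Finset.mem_range]
      have := hle c
      omega
    rw [this, Finset.card_range]
  calc M = ∑ c, ∑ j ∈ Finset.range M, (if j < m c then 1 else 0) := by
        rw [hM]; exact Finset.sum_congr rfl fun c _ => h1 c
    _ = ∑ j ∈ Finset.range M, ∑ c, (if j < m c then 1 else 0) := Finset.sum_comm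
    _ ≤ ∑ j ∈ Finset.range M, (k - j) := by
        apply Finset.sum_le_sum
        intro j _
        rw [← Finset.card_filter]
        exact count_le k m h j
    _ ≤ _ := sum_sub k M

theorem bad_of_inv' (N : ℝ) (hN : 0 < N) (k : ℕ) (G : Finset ℝ) (c : ℝ → Fin k) (h : Inv N G c)
    (hk : k * (k + 1) / 2 < G.card) : Bad G c := by
  by_contra hbad
  have hnot : ∀ g₀ ∈ G, ∃ g ∈ G, g₀ ≤ g ∧ ∀ g' ∈ G, g₀ ≤ g' → g' ≠ g → c g' ≠ c g := by
    intro g₀ hg₀
    by_contra hcon
    apply hbad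
    refine ⟨g₀, hg₀, ?_⟩
    intro g hg hle
    by_contra hcon2
    apply hcon
    refine ⟨g, hg, hle, ?_⟩
    intro g' hg' hle' hne hc
    exact hcon2 ⟨g', hg', hle', hne, hc⟩
  set m : Fin k → ℕ := fun i => (G.filter fun g => c g = i).card with hm
  have hsum : ∑ i, m i = G.card := by
    rw [hm]
    exact (Finset.card_eq_sum_card_fiberwise (f := c) (s := G) (t := Finset.univ)
      (fun g _ => Finset.mem_coe.2 (Finset.mem_univ _))).symm
  -- the levels of a colour
  have hlevel : ∀ i, (G.filter fun g => c g = i).image (lv N) = Finset.Icc 1 (m i) := by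
    intro i
    have hinj : Set.InjOn (lv N) ((G.filter fun g => c g = i : Finset ℝ) : Set ℝ) := by
      intro g hg g' hg' he
      rw [Finset.mem_coe, Finset.mem_filter] at hg hg'
      exact h.inj g hg.1 g' hg'.1 (hg.2.trans hg'.2.symm) he
    have hcard : ((G.filter fun g => c g = i).image (lv N)).card = m i :=
      Finset.card_image_of_injOn hinj
    apply Finset.eq_of_subset_of_card_le
    · intro j hj
      rw [Finset.mem_image] at hj
      obtain ⟨g, hg, rfl⟩ := hj
      rw [Finset.mem_filter] at hg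
      rw [Finset.mem_Icc]
      refine ⟨h.pos g hg.1, ?_⟩
      have h1 : Finset.Icc 1 (lv N g) ⊆ (G.filter fun g => c g = i).image (lv N) := by
        intro j hj
        rw [Finset.mem_Icc] at hj
        obtain ⟨g', hg', h2, h3⟩ := h.down g hg.1 j hj.1 hj.2
        rw [Finset.mem_image]
        exact ⟨g', Finset.mem_filter.2 ⟨hg', h2.trans hg.2⟩, h3⟩
      have h2 := Finset.card_le_card h1
      rw [Nat.card_Icc, hcard] at h2
      omega
    · rw [hcard, Nat.card_Icc]
      omega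
  have hlast := sum_le k m (by
    intro l hl hex
    obtain ⟨i, hi⟩ := hex
    have h1 : m i ∈ (G.filter fun g => c g = i).image (lv N) := by
      rw [hlevel i, Finset.mem_Icc]
      omega
    rw [Finset.mem_image] at h1
    obtain ⟨gt, hgt, hlt⟩ := h1
    obtain ⟨g, hg, hlv, hmax⟩ := hx_step N hN k G c h hnot l hl gt (Finset.mem_filter.1 hgt).1
      (by omega)
    refine ⟨c g, ?_⟩
    have h2 : l ∈ Finset.Icc 1 (m (c g)) := by
      rw [← hlevel (c g), Finset.mem_image]
      exact ⟨g, Finset.mem_filter.2 ⟨hg, rfl⟩, hlv⟩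
    rw [Finset.mem_Icc] at h2
    have h3 : m (c g) ∈ (G.filter fun g' => c g' = c g).image (lv N) := by
      rw [hlevel (c g), Finset.mem_Icc]
      omega
    rw [Finset.mem_image] at h3
    obtain ⟨g', hg', h4⟩ := h3
    rw [Finset.mem_filter] at hg'
    have h5 := hmax g' hg'.1 hg'.2
    omega)
  omega

theorem force_main (k T : ℕ) (N : ℝ) (hT : T = k * (k + 1) / 2 + 1) (hN : N = (T : ℝ) + 1) :
    ∀ (m s : ℕ) (G : Finset ℝ) (c : ℝ → Fin k), s + m = T → Inv N G c → G.card = s →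
      (∀ g ∈ G, ∃ l s' : ℕ, s' < s ∧ g = (l : ℝ) * N + s') →
      Force (Lst N T s m) G c := by
  have hNpos : 0 < N := by rw [hN]; positivity
  intro m
  induction m with
  | zero =>
    intro s G c hs hinv hcard hform
    show Bad G c
    apply bad_of_inv' N hNpos k G c hinv
    omega
  | succ m ih =>
    intro s G c hs hinv hcard hform
    show Force (A N T s :: Lst N T (s + 1) m) G c
    intro col
    set l : ℕ := (G.filter (fun g => c g = col)).card + 1 with hl
    have hle : (G.filter (fun g => c g = col)).card ≤ G.card := Finset.card_filter_le _ _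
    have hlT : l < T + 2 := by omega
    have hsN : (s:ℝ) < N := by
      rw [hN]
      have : (s:ℝ) ≤ T := by exact_mod_cast (by omega : s ≤ T)
      linarith
    have hlv : lv N ((l:ℝ) * N + s) = l := lv_eq N hNpos l s (by positivity) hsN
    have hnot : ((l:ℝ) * N + s) ∉ G := by
      intro hmem
      obtain ⟨l', s', hs', he⟩ := hform _ hmem
      have h1 : ((l * (T + 1) + s : ℕ) : ℝ) = ((l' * (T + 1) + s' : ℕ) : ℝ) := by
        push_cast
        rw [← hN]; exact he
      have h2 : l * (T + 1) + s = l' * (T + 1) + s' := by exact_mod_cast h1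
      have h3 : (l * (T + 1) + s) % (T + 1) = s := by
        rw [Nat.mul_add_mod_self_right]
        exact Nat.mod_eq_of_lt (by omega)
      have h4 : (l' * (T + 1) + s') % (T + 1) = s' := by
        rw [Nat.mul_add_mod_self_right]
        exact Nat.mod_eq_of_lt (by omega)
      rw [h2, h4] at h3
      omega
    refine ⟨(l:ℝ) * N + s, ?_, hnot, ?_⟩
    · unfold A
      exact Finset.mem_image.2 ⟨l, Finset.mem_range.2 hlT, rfl⟩
    · apply ih (s + 1)
      · omega
      · exact inv_step N G c hinv col _ hnot (by rw [hlv, hl]; congr!)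
      · rw [Finset.card_insert_of_notMem hnot, hcard]
      · intro g hg
        rcases Finset.mem_insert.1 hg with h | h
        · exact ⟨l, s, by omega, h⟩
        · obtain ⟨l', s', hs', he⟩ := hform g h
          exact ⟨l', s', by omega, he⟩

theorem force_all (k : ℕ) : ∃ L : List (Finset ℝ), L.length = k * (k + 1) / 2 + 1 ∧
    ∀ c : ℝ → Fin k, Force L ∅ c := by
  refine ⟨Lst (((k * (k + 1) / 2 + 1 : ℕ) : ℝ) + 1) (k * (k + 1) / 2 + 1) 0 (k * (k + 1) / 2 + 1),
    force_all_length _ _ _ _, fun c => ?_⟩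
  refine force_main k (k * (k + 1) / 2 + 1) _ rfl rfl (k * (k + 1) / 2 + 1) 0 ∅ c (by omega) ?_
    Finset.card_empty ?_
  · exact ⟨fun g hg => absurd hg (Finset.notMem_empty g),
      fun g hg => absurd hg (Finset.notMem_empty g),
      fun g hg => absurd hg (Finset.notMem_empty g)⟩
  · intro g hg
    exact absurd hg (Finset.notMem_empty g)

theorem main_k (k : ℕ) : ∃ F : Finset Disc, (∀ D ∈ F, 0 < D.2.2) ∧ PlyLE F (k * (k + 1) / 2 + 1) ∧
    ∀ χ : Disc → Fin k, ∃ p : ℝ × ℝ, (∃ D ∈ F, Mem p D) ∧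
      ∀ D ∈ F, Mem p D → ∃ D' ∈ F, Mem p D' ∧ D' ≠ D ∧ χ D' = χ D := by
  obtain ⟨L, hL, hf⟩ := force_all k
  obtain ⟨σ, F, P, hg⟩ := gad_all (Fin k) L ∅
  refine ⟨F, fun D hD => (hg.box D hD).1, hL ▸ hg.ply, fun χ => ?_⟩
  rcases Nat.eq_zero_or_pos k with hk | hk
  · subst hk
    exact (χ (0, 0, 0)).elim0
  · obtain ⟨p, -, h1, -, h3⟩ := hg.win χ (fun _ => ⟨0, hk⟩) (hf _)
    refine ⟨p, ?_, fun D hD hm => ?_⟩
    · rcases h1 with ⟨g, hg', -⟩ | h
      · simp at hg'
      · exact h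
    · rcases h3 D hD hm with ⟨g, hg', -⟩ | h
      · simp at hg'
      · exact h

theorem main_col (k : ℕ) (hk : 1 ≤ k) :
    ∃ F : Finset Disc, (∀ D ∈ F, 0 < D.2.2) ∧ PlyLE F (k * (k + 1) / 2 + 1) ∧
    ∀ (m : ℕ) (χ : {D // D ∈ F} → Fin m), ConflictFree F χ → k < m := by
  obtain ⟨F, h1, h2, h3⟩ := main_k k
  refine ⟨F, h1, h2, fun m χ hχ => ?_⟩
  by_contra hmk
  have hmk : m ≤ k := not_lt.1 hmk
  obtain ⟨p, ⟨D0, hD0, hm0⟩, hp⟩ :=
    h3 (fun D => if h : D ∈ F then Fin.castLE hmk (χ ⟨D, h⟩) else ⟨0, hk⟩)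
  obtain ⟨D, hD, hu⟩ := hχ p ⟨⟨D0, hD0⟩, hm0⟩
  obtain ⟨D', hD', hm', hne, hc⟩ := hp D.1 D.2 hD
  have := hu ⟨D', hD'⟩ hm' (fun h => hne (by rw [← h]))
  apply this
  simp only [hD', D.2, dif_pos] at hc
  exact Fin.castLE_injective hmk hc

/-- the largest `k` with `k (k + 1) / 2 < t` -/
theorem exists_k (t : ℕ) (ht : 2 ≤ t) : ∃ k, 1 ≤ k ∧ k * (k + 1) / 2 + 1 ≤ t ∧
    t ≤ (k + 1) * (k + 2) / 2 := by
  induction t, ht using Nat.le_induction with
  | base => exact ⟨1, le_rfl, by norm_num, by norm_num⟩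
  | succ t ht ih =>
    obtain ⟨k, hk, h1, h2⟩ := ih
    rcases Nat.lt_or_ge t ((k + 1) * (k + 2) / 2) with h | h
    · exact ⟨k, hk, by omega, by omega⟩
    · refine ⟨k + 1, by omega, ?_, ?_⟩
      · show (k + 1) * (k + 2) / 2 + 1 ≤ t + 1
        omega
      have h3 : (k + 1 + 1) * (k + 1 + 2) = (k + 1) * (k + 2) + 2 * (k + 2) := by ring
      have h4 : 0 < k := hk
      omega

theorem lower (t : ℕ) (ht : 2 ≤ t) : ∃ F : Finset Disc, (∀ D ∈ F, 0 < D.2.2) ∧ PlyLE F t ∧
    ∀ (m : ℕ) (χ : {D // D ∈ F} → Fin m), ConflictFree F χ → 2 * t ≤ m * (m + 1) := by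
  obtain ⟨k, hk, h1, h2⟩ := exists_k t ht
  obtain ⟨F, hF, hply, hcol⟩ := main_col k hk
  refine ⟨F, hF, fun p => (hply p).trans h1, fun m χ hχ => ?_⟩
  have h3 := hcol m χ hχ
  have h4 : (k + 1) * (k + 2) ≤ m * (m + 1) := Nat.mul_le_mul (by omega) (by omega)
  omega

/-! ### the linear upper bound -/

theorem mink (x₁ y₁ x₂ y₂ r₁ r₂ : ℝ) (h₁ : 0 ≤ r₁) (h₂ : 0 ≤ r₂) (h : x₁ ^ 2 + y₁ ^ 2 ≤ r₁ ^ 2)
    (h' : x₂ ^ 2 + y₂ ^ 2 ≤ r₂ ^ 2) : (x₁ + x₂) ^ 2 + (y₁ + y₂) ^ 2 ≤ (r₁ + r₂) ^ 2 := by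
  have h3 : (x₁ * x₂ + y₁ * y₂) ^ 2 ≤ (r₁ * r₂) ^ 2 := by
    have h4 := mul_le_mul h h' (by positivity) (by positivity)
    nlinarith [sq_nonneg (x₁ * y₂ - x₂ * y₁)]
  have h5 := (le_abs_self _).trans (abs_le_of_sq_le_sq h3 (by positivity))
  nlinarith

/-- the grid points used -/
noncomputable def grid : Finset (ℤ × ℤ) :=
  ((Finset.Icc (-2) 2) ×ˢ (Finset.Icc (-2) 2)).filter fun q => q.1 ^ 2 + q.2 ^ 2 < 8

theorem grid_card : grid.card = 21 := by
  unfold grid
  decide +kernel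

theorem mem_grid (i j : ℤ) (h : i ^ 2 + j ^ 2 < 8) : (i, j) ∈ grid := by
  unfold grid
  rw [Finset.mem_filter, Finset.mem_product, Finset.mem_Icc, Finset.mem_Icc]
  simp only
  refine ⟨⟨⟨?_, ?_⟩, ⟨?_, ?_⟩⟩, h⟩ <;> nlinarith [sq_nonneg i, sq_nonneg j]

/-- the grid point with the coordinates `q` relative to the disc `D` -/
def gp (D : Disc) (q : ℤ × ℤ) : ℝ × ℝ := (D.1 + q.1 * D.2.2, D.2.1 + q.2 * D.2.2)

theorem exists_grid (D D' : Disc) (hr : 0 < D.2.2) (hR : D.2.2 ≤ D'.2.2) (p : ℝ × ℝ) (h : Mem p D)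
    (h' : Mem p D') : ∃ q ∈ grid, Mem (gp D q) D' := by
  obtain ⟨a, b, r⟩ := D
  obtain ⟨a', b', R⟩ := D'
  obtain ⟨x, y⟩ := p
  unfold Mem at h h'
  simp only at h h' hr hR
  have hRpos : 0 < R := lt_of_lt_of_le hr hR
  -- the auxiliary centre
  obtain ⟨lam, hlam⟩ : ∃ lam : ℝ, lam = r / R := ⟨_, rfl⟩
  have hl0 : 0 < lam := by rw [hlam]; positivity
  have hl1 : lam ≤ 1 := by rw [hlam]; exact (div_le_one hRpos).2 hR
  have hlR : lam * R = r := by rw [hlam]; field_simp
  obtain ⟨z, hz⟩ : ∃ z : ℝ, z = x + lam * (a' - x) := ⟨_, rfl⟩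
  obtain ⟨w, hw⟩ : ∃ w : ℝ, w = y + lam * (b' - y) := ⟨_, rfl⟩
  have hzp : (z - x) ^ 2 + (w - y) ^ 2 ≤ r ^ 2 := by
    have : (z - x) ^ 2 + (w - y) ^ 2 = lam ^ 2 * ((x - a') ^ 2 + (y - b') ^ 2) := by
      rw [hz, hw]; ring
    rw [this, ← hlR, mul_pow]
    exact mul_le_mul_of_nonneg_left h' (by positivity)
  have hzc : (z - a') ^ 2 + (w - b') ^ 2 ≤ (R - r) ^ 2 := by
    have : (z - a') ^ 2 + (w - b') ^ 2 = (1 - lam) ^ 2 * ((x - a') ^ 2 + (y - b') ^ 2) := by
      rw [hz, hw]; ring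
    have h2 : (R - r) ^ 2 = (1 - lam) ^ 2 * R ^ 2 := by rw [← hlR]; ring
    rw [this, h2]
    exact mul_le_mul_of_nonneg_left h' (by positivity)
  have hza : (z - a) ^ 2 + (w - b) ^ 2 ≤ (r + r) ^ 2 := by
    have := mink (z - x) (w - y) (x - a) (y - b) r r hr.le hr.le hzp h
    have e1 : z - x + (x - a) = z - a := by ring
    have e2 : w - y + (y - b) = w - b := by ring
    rwa [e1, e2] at this
  -- rounding
  obtain ⟨u, hu⟩ : ∃ u : ℝ, u = (z - a) / r := ⟨_, rfl⟩
  obtain ⟨v, hv⟩ : ∃ v : ℝ, v = (w - b) / r := ⟨_, rfl⟩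
  have hu' : z - a = u * r := by rw [hu]; field_simp
  have hv' : w - b = v * r := by rw [hv]; field_simp
  have huv : u ^ 2 + v ^ 2 ≤ 4 := by
    rw [hu', hv'] at hza
    have h3 : (u ^ 2 + v ^ 2) * r ^ 2 ≤ 4 * r ^ 2 := by
      have e1 : (u ^ 2 + v ^ 2) * r ^ 2 = (u * r) ^ 2 + (v * r) ^ 2 := by ring
      have e2 : 4 * r ^ 2 = (r + r) ^ 2 := by ring
      rw [e1, e2]
      exact hza
    exact le_of_mul_le_mul_right h3 (by positivity)
  have hi := abs_sub_round u
  have hj := abs_sub_round v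
  generalize round u = i at hi
  generalize round v = j at hj
  have hsum : |u| + |v| < 3 := by
    have e1 : (|u| + |v|) ^ 2 = |u| ^ 2 + |v| ^ 2 + 2 * (|u| * |v|) := by ring
    have e2 : (|u| - |v|) ^ 2 = |u| ^ 2 + |v| ^ 2 - 2 * (|u| * |v|) := by ring
    have e3 := sq_nonneg (|u| - |v|)
    rw [e2] at e3
    rw [sq_abs, sq_abs] at e1 e3
    by_contra hcon
    have h6 : (3 : ℝ) * 3 ≤ (|u| + |v|) * (|u| + |v|) :=
      mul_self_le_mul_self (by norm_num) (not_lt.1 hcon)
    rw [← sq, ← sq] at h6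
    linarith
  have habs : ∀ (x : ℝ) (k : ℤ), |x - k| ≤ 1 / 2 → (k : ℝ) ^ 2 ≤ x ^ 2 + |x| + 1 / 4 := by
    intro x k hk
    have h1 : |(k : ℝ)| ≤ |x| + 1 / 2 := by
      have : |(k : ℝ)| ≤ |x| + |x - k| := by
        have h := abs_sub_abs_le_abs_sub (k : ℝ) x
        rw [abs_sub_comm] at h
        linarith
      linarith
    have h2 := pow_le_pow_left₀ (abs_nonneg _) h1 2
    rw [sq_abs] at h2
    have e : (|x| + 1 / 2) ^ 2 = |x| ^ 2 + |x| + 1 / 4 := by ring
    rw [e, sq_abs] at h2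
    exact h2
  have hi2 := habs u i hi
  have hj2 := habs v j hj
  have hij : i ^ 2 + j ^ 2 < 8 := by
    have : (i : ℝ) ^ 2 + (j : ℝ) ^ 2 < 8 := by linarith
    exact_mod_cast this
  refine ⟨(i, j), mem_grid i j hij, ?_⟩
  unfold Mem gp
  simp only
  have hq : (a + i * r - z) ^ 2 + (b + j * r - w) ^ 2 ≤ r ^ 2 := by
    have e1 : a + i * r - z = (i - u) * r := by linear_combination -hu'
    have e2 : b + j * r - w = (j - v) * r := by linear_combination -hv'
    rw [e1, e2]
    have hsq : ∀ (x : ℝ) (k : ℤ), |x - k| ≤ 1 / 2 → ((k : ℝ) - x) ^ 2 ≤ 1 / 4 := by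
      intro x k hk
      have h2 := pow_le_pow_left₀ (abs_nonneg _) hk 2
      rw [sq_abs] at h2
      have e : ((k : ℝ) - x) ^ 2 = (x - k) ^ 2 := by ring
      rw [e]
      norm_num at h2 ⊢
      exact h2
    have h5 := hsq u i hi
    have h6 := hsq v j hj
    have e3 : (((i : ℝ) - u) * r) ^ 2 + (((j : ℝ) - v) * r) ^ 2 =
        (((i : ℝ) - u) ^ 2 + ((j : ℝ) - v) ^ 2) * r ^ 2 := by ring
    rw [e3]
    exact mul_le_of_le_one_left (sq_nonneg r) (by linarith)
  have := mink (a + i * r - z) (b + j * r - w) (z - a') (w - b') r (R - r) hr.le (by linarith) hq hzc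
  have e1 : a + i * r - z + (z - a') = a + i * r - a' := by ring
  have e2 : b + j * r - w + (w - b') = b + j * r - b' := by ring
  have e3 : r + (R - r) = R := by ring
  rwa [e1, e2, e3] at this

theorem card_meet (F : Finset Disc) (t : ℕ) (hply : PlyLE F t) (D : Disc) (hr : 0 < D.2.2)
    (hmin : ∀ D' ∈ F, D.2.2 ≤ D'.2.2) :
    (F.filter fun D' => ∃ p, Mem p D ∧ Mem p D').card ≤ 21 * t := by
  have h1 : (F.filter fun D' => ∃ p, Mem p D ∧ Mem p D') ⊆
      grid.biUnion fun q => F.filter fun D' => Mem (gp D q) D' := by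
    intro D' hD'
    rw [Finset.mem_filter] at hD'
    obtain ⟨hF, p, hp, hp'⟩ := hD'
    obtain ⟨q, hq, hm⟩ := exists_grid D D' hr (hmin D' hF) p hp hp'
    rw [Finset.mem_biUnion]
    exact ⟨q, hq, Finset.mem_filter.2 ⟨hF, hm⟩⟩
  refine (Finset.card_le_card h1).trans (Finset.card_biUnion_le.trans ?_)
  calc ∑ q ∈ grid, (F.filter fun D' => Mem (gp D q) D').card ≤ ∑ _q ∈ grid, t :=
        Finset.sum_le_sum fun q _ => hply (gp D q)
    _ = 21 * t := by rw [Finset.sum_const, grid_card, smul_eq_mul]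

theorem colour (t : ℕ) (ht : 1 ≤ t) (F : Finset Disc) : (∀ D ∈ F, 0 < D.2.2) → PlyLE F t →
    ∃ χ : Disc → Fin (21 * t), ∀ D ∈ F, ∀ D' ∈ F, D ≠ D' → (∃ p, Mem p D ∧ Mem p D') →
      χ D ≠ χ D' := by
  induction F using Finset.induction_on_min_value (fun D : Disc => D.2.2) with
  | empty =>
    intro _ _
    exact ⟨fun _ => ⟨0, by omega⟩, fun D hD => absurd hD (Finset.notMem_empty D)⟩
  | insert a s ha hmin ih =>
    intro hpos hply
    have hply' : PlyLE s t := fun p =>
      (Finset.card_le_card (Finset.filter_subset_filter _ (Finset.subset_insert a s))).trans (hply p)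
    obtain ⟨χ, hχ⟩ := ih (fun D hD => hpos D (Finset.mem_insert_of_mem hD)) hply'
    have hapos := hpos a (Finset.mem_insert_self a s)
    have hcard := card_meet (insert a s) t hply a hapos (by
      intro D' hD'
      rcases Finset.mem_insert.1 hD' with rfl | h
      · exact le_rfl
      · exact hmin D' h)
    set M := (insert a s).filter fun D' => ∃ p, Mem p a ∧ Mem p D' with hM
    have haM : a ∈ M := by
      rw [hM, Finset.mem_filter]
      refine ⟨Finset.mem_insert_self a s, (a.1, a.2.1), ?_, ?_⟩ <;>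
      · unfold Mem
        simp only [sub_self]
        rw [show (0 : ℝ) ^ 2 + 0 ^ 2 = 0 by norm_num]
        exact sq_nonneg _
    have hne : ∃ col : Fin (21 * t), col ∉ (M.erase a).image χ := by
      by_contra hcon
      push Not at hcon
      have h1 : (Finset.univ : Finset (Fin (21 * t))) ⊆ (M.erase a).image χ := fun c _ => hcon c
      have h2 := Finset.card_le_card h1
      rw [Finset.card_univ, Fintype.card_fin] at h2
      have h3 := Finset.card_image_le (s := M.erase a) (f := χ)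
      have h4 := Finset.card_erase_lt_of_mem haM
      omega
    obtain ⟨col, hcol⟩ := hne
    have hna : ∀ D ∈ s, D ≠ a := by
      rintro D hD rfl
      exact ha hD
    have hnew : ∀ D ∈ s, (∃ p, Mem p a ∧ Mem p D) → χ D ≠ col := by
      intro D hD hp he
      apply hcol
      rw [Finset.mem_image]
      refine ⟨D, ?_, he⟩
      rw [Finset.mem_erase, hM, Finset.mem_filter]
      exact ⟨hna D hD, Finset.mem_insert_of_mem hD, hp⟩
    refine ⟨Function.update χ a col, ?_⟩
    intro D hD D' hD' hDD' hp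
    rcases Finset.mem_insert.1 hD with h | h <;> rcases Finset.mem_insert.1 hD' with h' | h'
    · exact absurd (h.trans h'.symm) hDD'
    · rw [h, Function.update_self, Function.update_of_ne (hna D' h')]
      rw [h] at hp
      exact (hnew D' h' hp).symm
    · rw [h', Function.update_self, Function.update_of_ne (hna D h)]
      rw [h'] at hp
      obtain ⟨p, h1, h2⟩ := hp
      exact hnew D h ⟨p, h2, h1⟩
    · rw [Function.update_of_ne (hna D h), Function.update_of_ne (hna D' h')]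
      exact hχ D h D' h' hDD' hp

/-- **Two-sided bounds for conflict-free colourings of discs of bounded ply.**
(1) For every `t ≥ 2` there is a finite family of discs of ply at most `t` such that every conflict-free
colouring with `m` colours has `2 t ≤ m (m + 1)`, that is, `m ≥ (√(8 t + 1) - 1) / 2`.
(2) Every finite family of discs of ply at most `t`, `t ≥ 1`, has a conflict-free colouring with `21 t`
colours. (3) No bound `C log t` holds (the negative answer to Q1). -/
theorem result :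
    (∀ t : ℕ, 2 ≤ t → ∃ F : Finset Disc, (∀ D ∈ F, 0 < D.2.2) ∧ PlyLE F t ∧
      ∀ (m : ℕ) (χ : {D // D ∈ F} → Fin m), ConflictFree F χ → 2 * t ≤ m * (m + 1)) ∧
    (∀ t : ℕ, 1 ≤ t → ∀ F : Finset Disc, (∀ D ∈ F, 0 < D.2.2) → PlyLE F t →
      ∃ χ : {D // D ∈ F} → Fin (21 * t), ConflictFree F χ) ∧
    (∀ C : ℝ, ∃ t : ℕ, 2 ≤ t ∧ ∃ F : Finset Disc, (∀ D ∈ F, 0 < D.2.2) ∧ PlyLE F t ∧
      ∀ (m : ℕ) (χ : {D // D ∈ F} → Fin m), ConflictFree F χ → C * Real.log t < m) := by
  refine ⟨lower, ?_, Pool.Agent.Results.MP_f0f1b2_co.SqrtPly.result.2⟩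
  intro t ht F hpos hply
  obtain ⟨χ, hχ⟩ := colour t ht F hpos hply
  refine ⟨fun D => χ D.1, ?_⟩
  rintro p ⟨D, hD⟩
  refine ⟨D, hD, fun D' hD' hne he => ?_⟩
  exact hχ D.1 D.2 D'.1 D'.2 (fun e => hne (Subtype.ext e.symm)) ⟨p, hD, hD'⟩ he.symm

end Pool.Agent.Results.MP_f0f1b2_co.PlyBounds
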