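import Pool.Agent.Y384.CF.Strat
import Pool.Agent.Y384.CF.Upper

/-! # Relaxed conflict-free colourings of discs of bounded ply

A colouring is `r`-conflict-free if at every covered point some colour occurs at least once and at
most `r` times.  -/

set_option autoImplicit false

open scoped Classical

namespace Pool.Agent.Results.MP_f0f1b2_co.RelaxedColourings

open Pool.Agent.Results.MP_f0f1b2_co.SqrtPly

/-- the number of members of `F` that contain `p` and have the colour `a` -/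
noncomputable def mult (F : Finset Disc) {m : ℕ} (χ : Disc → Fin m) (p : ℝ × ℝ) (a : Fin m) : ℕ :=
  (F.filter (fun D => Mem p D ∧ χ D = a)).card

/-- `χ` is an `r`-conflict-free colouring of `F`: at every point of a member of `F` some colour
occurs at least once and at most `r` times. -/
def Relaxed (r : ℕ) (F : Finset Disc) {m : ℕ} (χ : Disc → Fin m) : Prop :=
  ∀ p : ℝ × ℝ, (∃ D ∈ F, Mem p D) → ∃ a : Fin m, 1 ≤ mult F χ p a ∧ mult F χ p a ≤ r

lemma lower_total (r k t : ℕ) (hk : 1 ≤ k) (ht : r * (k * (k + 1)) < 2 * t) :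
    ∃ F : Finset Disc, (∀ D ∈ F, 0 < D.2.2) ∧ PlyLE F t ∧
      ∀ (m : ℕ) (χ : Disc → Fin m), Relaxed r F χ → k < m := by
  obtain ⟨F, h1, h2, h3⟩ := Pool.Agent.Y384.CF.Strat.lower r k t hk ht
  refine ⟨F, h1, h2, fun m χ hχ => ?_⟩
  by_contra hmk
  push Not at hmk
  obtain ⟨p, hp, hb⟩ := h3 (fun D => Fin.castLE hmk (χ D))
  obtain ⟨a, ha1, ha2⟩ := hχ p hp
  have he : (F.filter (fun D => Mem p D ∧ Fin.castLE hmk (χ D) = Fin.castLE hmk a)).card =
      mult F χ p a := by
    unfold mult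
    congr 1
    ext D
    rw [Finset.mem_filter, Finset.mem_filter]
    constructor
    · rintro ⟨h4, h5, h6⟩
      exact ⟨h4, h5, Fin.castLE_injective hmk h6⟩
    · rintro ⟨h4, h5, h6⟩
      exact ⟨h4, h5, by rw [h6]⟩
  have := hb (Fin.castLE hmk a)
  rw [he] at this
  omega

/-- from a colouring of the members to a colouring of all discs -/
lemma extend (F : Finset Disc) {m : ℕ} (hm : 1 ≤ m) (χ : {D // D ∈ F} → Fin m)
    (h : ConflictFree F χ) : Relaxed 1 F
      (fun D => if h : D ∈ F then χ ⟨D, h⟩ else ⟨0, hm⟩) := by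
  rintro p ⟨D0, hD0, hp0⟩
  obtain ⟨D, hD, hu⟩ := h p ⟨⟨D0, hD0⟩, hp0⟩
  have he : F.filter (fun D' => Mem p D' ∧
      (if h : D' ∈ F then χ ⟨D', h⟩ else ⟨0, hm⟩) = χ D) = {D.1} := by
    ext D'
    rw [Finset.mem_filter, Finset.mem_singleton]
    constructor
    · rintro ⟨h1, h2, h3⟩
      rw [dif_pos h1] at h3
      by_contra hne
      exact hu ⟨D', h1⟩ h2 (fun e => hne (congrArg Subtype.val e)) h3
    · rintro rfl
      exact ⟨D.2, hD, by rw [dif_pos D.2]⟩
  refine ⟨χ D, ?_, ?_⟩ <;>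
  · unfold mult
    rw [he, Finset.card_singleton]

/-- **Relaxed conflict-free colourings.**  Call a colouring of a finite family of discs
`r`-conflict-free if at every covered point some colour occurs at least once and at most `r` times
(`r = 1`: conflict-free).  Let the ply be at most `t`.
(1) If `r k (k + 1) < 2 t`, then some family has no `r`-conflict-free colouring with `k` colours.
(2) If `9 t ≤ r m`, `m ≥ 1`, then every family has a colouring with `m` colours with every colour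
at most `r` times at every point, and it is `r`-conflict-free.
(3) For conflict-free colourings: `k` colours do not suffice if `k (k + 1) < 2 t`;
(4) `9 t` colours suffice, `t ≥ 1`.
(5) So the bound `C log t` asked for in Q1 fails. -/
theorem result :
    (∀ r k t : ℕ, 1 ≤ k → r * (k * (k + 1)) < 2 * t →
      ∃ F : Finset Disc, (∀ D ∈ F, 0 < D.2.2) ∧ PlyLE F t ∧
        ∀ (m : ℕ) (χ : Disc → Fin m), Relaxed r F χ → k < m) ∧
    (∀ r m t : ℕ, 1 ≤ m → 9 * t ≤ r * m →
      ∀ F : Finset Disc, (∀ D ∈ F, 0 < D.2.2) → PlyLE F t →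
        ∃ χ : Disc → Fin m, Relaxed r F χ ∧ ∀ (p : ℝ × ℝ) (a : Fin m), mult F χ p a ≤ r) ∧
    (∀ k t : ℕ, 1 ≤ k → k * (k + 1) < 2 * t →
      ∃ F : Finset Disc, (∀ D ∈ F, 0 < D.2.2) ∧ PlyLE F t ∧
        ∀ (m : ℕ) (χ : {D // D ∈ F} → Fin m), ConflictFree F χ → k < m) ∧
    (∀ t : ℕ, 1 ≤ t → ∀ F : Finset Disc, (∀ D ∈ F, 0 < D.2.2) → PlyLE F t →
      ∃ χ : {D // D ∈ F} → Fin (9 * t), ConflictFree F χ) ∧
    (∀ C : ℝ, ∃ t : ℕ, 2 ≤ t ∧ ∃ F : Finset Disc, (∀ D ∈ F, 0 < D.2.2) ∧ PlyLE F t ∧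
      ∀ (m : ℕ) (χ : {D // D ∈ F} → Fin m), ConflictFree F χ → C * Real.log t < m) := by
  have up : ∀ r m t : ℕ, 1 ≤ m → 9 * t ≤ r * m →
      ∀ F : Finset Disc, (∀ D ∈ F, 0 < D.2.2) → PlyLE F t →
        ∃ χ : Disc → Fin m, Relaxed r F χ ∧ ∀ (p : ℝ × ℝ) (a : Fin m), mult F χ p a ≤ r := by
    intro r m t hm h9 F hF hply
    obtain ⟨χ, hχ⟩ := Pool.Agent.Y384.CF.Upper.upper r m t hm h9 _ F rfl hF hply
    have hle : ∀ (p : ℝ × ℝ) (a : Fin m), mult F χ p a ≤ r := by
      intro p a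
      refine le_trans (le_of_eq ?_) (hχ p a)
      unfold mult
      congr!
    refine ⟨χ, ?_, hle⟩
    rintro p ⟨D, hD, hp⟩
    refine ⟨χ D, ?_, hle p _⟩
    unfold mult
    exact Finset.card_pos.2 ⟨D, Finset.mem_filter.2 ⟨hD, hp, rfl⟩⟩
  refine ⟨fun r k t hk ht => lower_total r k t hk ht, up, ?_, ?_, SqrtPly.result.2⟩
  · intro k t hk ht
    obtain ⟨F, h1, h2, h3⟩ := lower_total 1 k t hk (by omega)
    refine ⟨F, h1, h2, fun m χ hχ => ?_⟩
    rcases Nat.eq_zero_or_pos m with hm | hm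
    · exfalso
      subst hm
      have hemp : F = ∅ := by
        rw [Finset.eq_empty_iff_forall_notMem]
        intro D hD
        exact (χ ⟨D, hD⟩).elim0
      have := h3 1 (fun _ => 0) (by
        rintro p ⟨D, hD, -⟩
        rw [hemp] at hD
        exact absurd hD (Finset.notMem_empty D))
      omega
    · exact h3 m _ (extend F hm χ hχ)
  · intro t ht F hF hply
    obtain ⟨χ, -, hχ⟩ := up 1 (9 * t) t (by omega) (by omega) F hF hply
    refine ⟨fun D => χ D.1, ?_⟩
    rintro p ⟨D, hp⟩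
    refine ⟨D, hp, fun D' hp' hne hc => ?_⟩
    have h1 := hχ p (χ D.1)
    unfold mult at h1
    rw [Finset.card_le_one] at h1
    have h2 := h1 D.1 (Finset.mem_filter.2 ⟨D.2, hp, rfl⟩) D'.1
      (Finset.mem_filter.2 ⟨D'.2, hp', hc⟩)
    exact hne (Subtype.ext h2.symm)

end Pool.Agent.Results.MP_f0f1b2_co.RelaxedColourings
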